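import Pool.Agent.H21.Rand6

set_option autoImplicit false

namespace Pool.Agent.Results.MP_2976e9_lc.Opposite

open MeasureTheory Pool.Agent.H21.Rand
open scoped ENNReal NNReal

/-- For every universal expectation-bounded test `tE`, every universal probability-bounded test
`tP` and every constant `c` there are Martin-Löf random sequences `ω₁`, `ω₂` which the two
deficiencies order in opposite ways, by a margin of at least `c`. (On Martin-Löf random sequences
both tests take values in `(0, ∞)`, so the logarithms are the genuine ones; this is part of the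
conclusion.) -/
theorem result (tE tP : (ℕ → Bool) → ℝ≥0∞) (hE : UniversalE tE) (hP : UniversalP tP) (c : ℝ) :
    (∀ ω, MLRandom ω → 0 < tE ω ∧ tE ω < ∞ ∧ 0 < tP ω ∧ tP ω < ∞) ∧
    ∃ ω₁ ω₂ : ℕ → Bool, MLRandom ω₁ ∧ MLRandom ω₂ ∧
      deficiency tE ω₁ ≥ deficiency tE ω₂ + c ∧
      deficiency tP ω₂ ≥ deficiency tP ω₁ + c := by
  obtain ⟨e0, he0⟩ := one_le_E hE
  obtain ⟨b, hb⟩ := zero_test hP
  have hposE : ∀ ω, 0 < tE ω := by
    intro ω
    rw [pos_iff_ne_zero]
    intro h0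
    have := he0 ω
    rw [h0, mul_zero] at this
    exact absurd this (by norm_num)
  have hposP : ∀ ω, 0 < tP ω := by
    intro ω
    rw [pos_iff_ne_zero]
    intro h0
    have := hb 0 ω (by rw [mem_cyl]; rfl)
    rw [h0, mul_zero, pow_zero] at this
    exact absurd this (by norm_num)
  have hall : ∀ ω, MLRandom ω → 0 < tE ω ∧ tE ω < ∞ ∧ 0 < tP ω ∧ tP ω < ∞ := fun ω h =>
    ⟨hposE ω, fin_of_ml_E hE.1 h, hposP ω, fin_of_ml_P hP.1 h⟩
  refine ⟨hall, ?_⟩
  obtain ⟨c', hc'⟩ := exists_nat_ge c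
  obtain ⟨ω₁, ω₂, h1, h2, h3, h4⟩ := main hE hP c'
  have key : ∀ x y : ℝ≥0∞, 0 < x → x < ∞ → y < ∞ → (2 : ℝ≥0∞) ^ c' * x ≤ y →
      Real.logb 2 y.toReal ≥ Real.logb 2 x.toReal + c := by
    intro x y hx hx' hy hxy
    have hx0 : 0 < x.toReal := ENNReal.toReal_pos hx.ne' hx'.ne
    have h5 : (2 : ℝ) ^ c' * x.toReal ≤ y.toReal := by
      have h6 := ENNReal.toReal_mono hy.ne hxy
      rw [ENNReal.toReal_mul, ENNReal.toReal_pow] at h6
      simpa using h6
    have h7 : Real.logb 2 ((2 : ℝ) ^ c' * x.toReal) ≤ Real.logb 2 y.toReal :=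
      Real.logb_le_logb_of_le (by norm_num) (by positivity) h5
    rw [Real.logb_mul (by positivity) hx0.ne', Real.logb_pow, Real.logb_self_eq_one
      (by norm_num), mul_one] at h7
    linarith
  obtain ⟨a1, a2, a3, a4⟩ := hall ω₁ h1
  obtain ⟨b1, b2, b3, b4⟩ := hall ω₂ h2
  exact ⟨ω₁, ω₂, h1, h2, key _ _ b1 b2 a2 h3, key _ _ a3 a4 b4 h4⟩

end Pool.Agent.Results.MP_2976e9_lc.Opposite
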